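import Mathlib
import Pool.Agent.KUB.MainF

set_option autoImplicit false

/-!
MP_36674f_nt: two-dimensional Kronecker sequences.  For EVERY badly approximable `α` and almost
every `β`, the star discrepancy satisfies `D_N ≤ C (log N)² (loglog N)^{2+ε} / N` for all
`N ≥ 16`, for every `ε > 0`.
-/

namespace Pool.Agent.Results.MP_36674f_nt.EveryBadlyLineUpper

open MeasureTheory

/-- Let `α` be badly approximable: `q |qα - round(qα)| ≥ c > 0` for all `q ≥ 1`.  Then for Lebesgue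
almost every real `β`: for every `ε > 0` there is a `C` such that for all `N ≥ 16` and all boxes
`[0,a) × [0,b)` in the unit square
`|#{n < N : ({nα},{nβ}) ∈ [0,a) × [0,b)} / N - ab| ≤ C (log N)² (log log N)^{2+ε} / N`. -/
theorem result (α : ℝ)
    (hα : ∃ c : ℝ, 0 < c ∧ ∀ q : ℕ, 1 ≤ q →
      c ≤ (q : ℝ) * |(q : ℝ) * α - (round ((q : ℝ) * α) : ℤ)|) :
    ∀ᵐ β : ℝ, ∀ ε : ℝ, 0 < ε → ∃ C : ℝ, ∀ N : ℕ, 16 ≤ N →
      ∀ a b : ℝ, 0 ≤ a → a ≤ 1 → 0 ≤ b → b ≤ 1 →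
      |(((Finset.range N).filter
        (fun n : ℕ => Int.fract ((n : ℝ) * α) < a ∧ Int.fract ((n : ℝ) * β) < b)).card : ℝ)
        / (N : ℝ) - a * b| ≤
        C * Real.log (N : ℝ) ^ 2 * Real.log (Real.log (N : ℝ)) ^ (2 + ε) / (N : ℝ) := by
  obtain ⟨c, hc, h⟩ := hα
  have hBA : Pool.Agent.KUB.BA α (min c 1) := by
    refine ⟨lt_min hc one_pos, min_le_right _ _, fun q hq => ?_⟩
    rw [Pool.Agent.FIB.nn_eq]
    exact (min_le_left _ _).trans (h q hq)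
  have key : ∀ k : ℕ, ∀ᵐ β : ℝ, ∃ C : ℝ, ∀ N : ℕ, 16 ≤ N →
      ∀ a b : ℝ, 0 ≤ a → a ≤ 1 → 0 ≤ b → b ≤ 1 →
      |(Pool.Agent.FIB.boxCount α β N a b : ℝ) - N * (a * b)| ≤
        C * Real.log N ^ 2 * Real.log (Real.log N) ^ (2 + 1 / ((k : ℝ) + 1)) := fun k =>
    Pool.Agent.KUB.main_F hBA (by positivity)
  filter_upwards [ae_all_iff.mpr key] with β hβ ε hε
  obtain ⟨k, hk⟩ := exists_nat_one_div_lt hε
  obtain ⟨C, hC⟩ := hβ k
  refine ⟨|C|, fun N hN a b ha0 ha1 hb0 hb1 => ?_⟩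
  have hNr : (0 : ℝ) < N := by
    have : 0 < N := by omega
    exact_mod_cast this
  have e : (((Finset.range N).filter
      (fun n : ℕ => Int.fract ((n : ℝ) * α) < a ∧ Int.fract ((n : ℝ) * β) < b)).card : ℝ)
      / (N : ℝ) - a * b =
      ((Pool.Agent.FIB.boxCount α β N a b : ℝ) - N * (a * b)) / N := by
    unfold Pool.Agent.FIB.boxCount
    rw [sub_div, mul_div_cancel_left₀ _ hNr.ne']
  rw [e, abs_div, abs_of_pos hNr]
  apply div_le_div_of_nonneg_right _ hNr.le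
  have hll : 1 ≤ Real.log (Real.log (N : ℝ)) := by
    have h16 : (16 : ℝ) ≤ N := by exact_mod_cast hN
    have h1 : Real.exp 1 ≤ Real.log (N : ℝ) := by
      have h2 : Real.exp 1 < 2.7182818286 := Real.exp_one_lt_d9
      have h3 : (0.6931471803 : ℝ) < Real.log 2 := Real.log_two_gt_d9
      have h4 : Real.log 16 = 4 * Real.log 2 := by
        rw [show (16 : ℝ) = 2 ^ 4 by norm_num, Real.log_pow]; norm_num
      have h5 : Real.log 16 ≤ Real.log (N : ℝ) := Real.log_le_log (by norm_num) h16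
      linarith
    rw [Real.le_log_iff_exp_le (lt_of_lt_of_le (Real.exp_pos 1) h1)]
    exact h1
  refine (hC N hN a b ha0 ha1 hb0 hb1).trans ?_
  have hp : Real.log (Real.log (N : ℝ)) ^ (2 + 1 / ((k : ℝ) + 1)) ≤
      Real.log (Real.log (N : ℝ)) ^ (2 + ε) :=
    Real.rpow_le_rpow_of_exponent_le hll (by linarith)
  have hp0 : 0 ≤ Real.log (Real.log (N : ℝ)) ^ (2 + 1 / ((k : ℝ) + 1)) :=
    Real.rpow_nonneg (by linarith) _
  calc C * Real.log (N : ℝ) ^ 2 * Real.log (Real.log (N : ℝ)) ^ (2 + 1 / ((k : ℝ) + 1))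
      ≤ |C| * Real.log (N : ℝ) ^ 2 * Real.log (Real.log (N : ℝ)) ^ (2 + 1 / ((k : ℝ) + 1)) := by
        gcongr
        exact le_abs_self C
    _ ≤ |C| * Real.log (N : ℝ) ^ 2 * Real.log (Real.log (N : ℝ)) ^ (2 + ε) := by
        gcongr

end Pool.Agent.Results.MP_36674f_nt.EveryBadlyLineUpper
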