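import Mathlib
import Pool.Agent.FIB.Final

set_option autoImplicit false

/-!
MP_36674f_nt: two-dimensional Kronecker sequences.  For EVERY real `α` and Lebesgue almost every
real `β`, the star discrepancy `D_N` of `({nα}, {nβ})` satisfies
`limsup N D_N / ((log N)² φ(loglog N)) = ∞` for each nondecreasing `φ` with `∑ 1/φ(k) = ∞`
(and `φ(k) ≤ e^k`).
-/

namespace Pool.Agent.Results.MP_36674f_nt.EveryVerticalLine

open Filter

/-- Let `φ : ℕ → ℝ` be positive and nondecreasing with `φ k ≤ e^k` and `∑ 1/φ k = ∞`, and let `α`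
be ANY real number.  Then for Lebesgue almost every real `β` the following holds: for every `C`
there are infinitely many `N` for which some box `[0,a) × [0,b)` in the unit square has
`|#{n < N : ({nα},{nβ}) ∈ [0,a) × [0,b)} / N - ab| > C (log N)² φ(⌊log log N⌋) / N`. -/
theorem result (φ : ℕ → ℝ) (hpos : ∀ k, 0 < φ k) (hmono : Monotone φ)
    (hexp : ∀ k : ℕ, φ k ≤ Real.exp k) (hdiv : ¬ Summable (fun k : ℕ => 1 / φ k)) (α : ℝ) :
    ∀ᵐ β : ℝ, ∀ C : ℝ, ∃ᶠ N : ℕ in atTop, ∃ a b : ℝ, 0 ≤ a ∧ a ≤ 1 ∧ 0 ≤ b ∧ b ≤ 1 ∧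
      C * (Real.log (N : ℝ)) ^ 2 * φ ⌊Real.log (Real.log (N : ℝ))⌋₊ / (N : ℝ) <
        |(((Finset.range N).filter
          (fun n : ℕ => Int.fract ((n : ℝ) * α) < a ∧ Int.fract ((n : ℝ) * β) < b)).card : ℝ)
          / (N : ℝ) - a * b| := by
  filter_upwards [Pool.Agent.FIB.fib_main φ hpos hmono hexp hdiv α] with β hβ
  intro C
  refine ((hβ C).and_eventually (eventually_ge_atTop 1)).mono ?_
  rintro N ⟨⟨a, b, ha0, ha1, hb0, hb1, h⟩, hN⟩
  refine ⟨a, b, ha0, ha1, hb0, hb1, ?_⟩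
  have hNr : (0 : ℝ) < N := by exact_mod_cast hN
  have e : (((Finset.range N).filter
      (fun n : ℕ => Int.fract ((n : ℝ) * α) < a ∧ Int.fract ((n : ℝ) * β) < b)).card : ℝ)
      / (N : ℝ) - a * b =
      ((Pool.Agent.FIB.boxCount α β N a b : ℝ) - N * (a * b)) / N := by
    unfold Pool.Agent.FIB.boxCount
    rw [sub_div, mul_div_cancel_left₀ _ hNr.ne']
  rw [e, abs_div, abs_of_pos hNr]
  exact div_lt_div_of_pos_right h hNr

end Pool.Agent.Results.MP_36674f_nt.EveryVerticalLine
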