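import Mathlib
import Pool.Agent.KUB.MainE

set_option autoImplicit false

/-!
MP_36674f_nt: two-dimensional Kronecker sequences.  For EVERY badly approximable `α` the set of
`β` whose pair `(α,β)` has star discrepancy `D_N ≤ C (log N)² loglog N / N` for all `N ≥ 3` has
Hausdorff dimension one.
-/

namespace Pool.Agent.Results.MP_36674f_nt.FullDimensionLogLog

/-- Let `α` be badly approximable: `q |qα - round(qα)| ≥ c > 0` for all `q ≥ 1`.  Then the set of
real `β` for which there is a `C` such that for all `N ≥ 3` and all boxes `[0,a) × [0,b)` in the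
unit square `|#{n < N : ({nα},{nβ}) ∈ [0,a) × [0,b)} / N - ab| ≤ C (log N)² log log N / N` has
Hausdorff dimension one. -/
theorem result (α : ℝ)
    (hα : ∃ c : ℝ, 0 < c ∧ ∀ q : ℕ, 1 ≤ q →
      c ≤ (q : ℝ) * |(q : ℝ) * α - (round ((q : ℝ) * α) : ℤ)|) :
    dimH {β : ℝ | ∃ C : ℝ, ∀ N : ℕ, 3 ≤ N → ∀ a b : ℝ, 0 ≤ a → a ≤ 1 → 0 ≤ b → b ≤ 1 →
      |(((Finset.range N).filter
        (fun n : ℕ => Int.fract ((n : ℝ) * α) < a ∧ Int.fract ((n : ℝ) * β) < b)).card : ℝ)
        / (N : ℝ) - a * b| ≤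
        C * Real.log (N : ℝ) ^ 2 * Real.log (Real.log (N : ℝ)) / (N : ℝ)} = 1 := by
  obtain ⟨c, hc, h⟩ := hα
  have hBA : Pool.Agent.KUB.BA α (min c 1) := by
    refine ⟨lt_min hc one_pos, min_le_right _ _, fun q hq => ?_⟩
    rw [Pool.Agent.FIB.nn_eq]
    exact (min_le_left _ _).trans (h q hq)
  have key := Pool.Agent.KUB.main_E hBA
  have e : {β : ℝ | ∃ C : ℝ, ∀ N : ℕ, 3 ≤ N → ∀ a b : ℝ, 0 ≤ a → a ≤ 1 → 0 ≤ b → b ≤ 1 →
      |(((Finset.range N).filter
        (fun n : ℕ => Int.fract ((n : ℝ) * α) < a ∧ Int.fract ((n : ℝ) * β) < b)).card : ℝ)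
        / (N : ℝ) - a * b| ≤
        C * Real.log (N : ℝ) ^ 2 * Real.log (Real.log (N : ℝ)) / (N : ℝ)} =
      {β : ℝ | ∃ C : ℝ, ∀ N : ℕ, 3 ≤ N → ∀ a b : ℝ, 0 ≤ a → a ≤ 1 → 0 ≤ b → b ≤ 1 →
      |(Pool.Agent.FIB.boxCount α β N a b : ℝ) - N * (a * b)| ≤
        C * Real.log N ^ 2 * Real.log (Real.log N)} := by
    ext β
    refine exists_congr fun C => forall_congr' fun N => ?_
    refine forall_congr' fun hN => forall_congr' fun a => forall_congr' fun b => ?_
    refine forall_congr' fun _ => forall_congr' fun _ => forall_congr' fun _ =>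
      forall_congr' fun _ => ?_
    have hNr : (0 : ℝ) < N := by
      have : 0 < N := by omega
      exact_mod_cast this
    have e : (((Finset.range N).filter
        (fun n : ℕ => Int.fract ((n : ℝ) * α) < a ∧ Int.fract ((n : ℝ) * β) < b)).card : ℝ)
        / (N : ℝ) - a * b =
        ((Pool.Agent.FIB.boxCount α β N a b : ℝ) - N * (a * b)) / N := by
      unfold Pool.Agent.FIB.boxCount
      rw [sub_div, mul_div_cancel_left₀ _ hNr.ne']
    rw [e, abs_div, abs_of_pos hNr, div_le_div_iff_of_pos_right hNr]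
  rw [e]
  exact key

end Pool.Agent.Results.MP_36674f_nt.FullDimensionLogLog
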